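import Mathlib

/-! The number of orbits of a permutation as a sum over the points. -/

set_option autoImplicit false

namespace Pool.Agent.H63.MM

open Function

/-- The number of the orbits (counted by their least elements) is the sum of the inverses of the
lengths of the orbits. -/
theorem card_orbits {n : ℕ} (τ : Equiv.Perm (Fin n)) :
    (({i : Fin n | ∀ r : ℕ, i ≤ (τ ^ r) i}.ncard : ℕ) : ℚ) =
      ∑ i, 1 / (minimalPeriod τ i : ℚ) := by
  classical
  have hper : ∀ i, 0 < minimalPeriod τ i := fun i => by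
    apply minimalPeriod_pos_of_mem_periodicPts
    refine ⟨orderOf τ, orderOf_pos τ, ?_⟩
    change (τ : Fin n → Fin n)^[orderOf τ] i = i
    rw [← Equiv.Perm.coe_pow, pow_orderOf_eq_one]; rfl
  have hpow : ∀ (r : ℕ) i, (τ ^ r) i = (τ : Fin n → Fin n)^[r] i := fun r i => by
    rw [Equiv.Perm.coe_pow]
  have hconst : ∀ (r : ℕ) i, minimalPeriod τ ((τ ^ r) i) = minimalPeriod τ i := by
    intro r i
    rw [hpow]
    apply minimalPeriod_apply_iterate
    exact (minimalPeriod_pos_iff_mem_periodicPts.1 (hper i))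
  let O : Fin n → Finset (Fin n) := fun i => (Finset.range (minimalPeriod τ i)).image
    fun r => (τ ^ r) i
  have hO : ∀ i j, j ∈ O i ↔ ∃ r : ℕ, (τ ^ r) i = j := by
    intro i j
    simp only [O, Finset.mem_image, Finset.mem_range]
    constructor
    · rintro ⟨r, -, h⟩; exact ⟨r, h⟩
    · rintro ⟨r, h⟩
      refine ⟨r % minimalPeriod τ i, Nat.mod_lt _ (hper i), ?_⟩
      rw [hpow, iterate_mod_minimalPeriod_eq, ← hpow, h]
  have hOcard : ∀ i, (O i).card = minimalPeriod τ i := by
    intro i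
    rw [Finset.card_image_of_injOn, Finset.card_range]
    intro r hr s hs h
    simp only [Finset.coe_range, Set.mem_Iio] at hr hs
    simp only [hpow] at h
    exact (iterate_eq_iterate_iff_of_lt_minimalPeriod hr hs).1 h
  have hback : ∀ i (r : ℕ), ∃ s : ℕ, (τ ^ s) ((τ ^ r) i) = i := by
    intro i r
    refine ⟨orderOf τ * r - r, ?_⟩
    rw [← Equiv.Perm.mul_apply, ← pow_add, Nat.sub_add_cancel, pow_mul, pow_orderOf_eq_one,
      one_pow]
    · rfl
    · exact Nat.le_mul_of_pos_left _ (orderOf_pos τ)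
  have hne : ∀ i, (O i).Nonempty := fun i => ⟨i, (hO i i).2 ⟨0, rfl⟩⟩
  let m : Fin n → Fin n := fun i => (O i).min' (hne i)
  let S : Finset (Fin n) := Finset.univ.filter fun i => ∀ r : ℕ, i ≤ (τ ^ r) i
  have hmS : ∀ i, m i ∈ S := by
    intro i
    simp only [S, Finset.mem_filter, Finset.mem_univ, true_and]
    intro r
    apply Finset.min'_le
    obtain ⟨s, hs⟩ := (hO i (m i)).1 (Finset.min'_mem _ _)
    exact (hO _ _).2 ⟨r + s, by rw [pow_add, Equiv.Perm.mul_apply, hs]⟩
  have hfib : ∀ j ∈ S, (Finset.univ.filter fun i => m i = j) = O j := by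
    intro j hj
    simp only [S, Finset.mem_filter, Finset.mem_univ, true_and] at hj
    ext i
    simp only [Finset.mem_filter, Finset.mem_univ, true_and]
    constructor
    · intro h
      obtain ⟨s, hs⟩ := (hO i (m i)).1 (Finset.min'_mem _ _)
      obtain ⟨t, ht⟩ := hback i s
      rw [hs, h] at ht
      exact (hO _ _).2 ⟨t, ht⟩
    · intro h
      obtain ⟨s, hs⟩ := (hO _ _).1 h
      apply le_antisymm
      · apply Finset.min'_le
        obtain ⟨t, ht⟩ := hback j s
        rw [hs] at ht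
        exact (hO _ _).2 ⟨t, ht⟩
      · obtain ⟨t, ht⟩ := (hO i (m i)).1 (Finset.min'_mem _ _)
        rw [← ht, ← hs, ← Equiv.Perm.mul_apply, ← pow_add]
        exact hj _
  have hS : {i : Fin n | ∀ r : ℕ, i ≤ (τ ^ r) i} = (S : Set (Fin n)) := by
    ext i; simp [S]
  rw [hS, Set.ncard_coe_finset]
  have h1 : ∑ i, 1 / (minimalPeriod τ i : ℚ) =
      ∑ j ∈ S, ∑ i ∈ Finset.univ.filter (fun i => m i = j), 1 / (minimalPeriod τ i : ℚ) :=
    (Finset.sum_fiberwise_of_maps_to (fun i _ => hmS i) _).symm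
  rw [h1]
  have h2 : ∀ j ∈ S, ∑ i ∈ Finset.univ.filter (fun i => m i = j), 1 / (minimalPeriod τ i : ℚ) = 1 := by
    intro j hj
    rw [hfib j hj]
    have h3 : ∀ i ∈ O j, 1 / (minimalPeriod τ i : ℚ) = 1 / (minimalPeriod τ j : ℚ) := by
      intro i hi
      obtain ⟨s, hs⟩ := (hO _ _).1 hi
      rw [← hs, hconst]
    rw [Finset.sum_congr rfl h3, Finset.sum_const, hOcard, nsmul_eq_mul, mul_one_div_cancel]
    exact_mod_cast (hper j).ne'
  rw [Finset.sum_congr rfl h2]
  simp

end Pool.Agent.H63.MM
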