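import Pool.Graph.R_seed8.W619.Y.Main
import Pool.Graph.R_pool_sql_team_seeded_3997aac3.Q36.GP.Cp
import Pool.Agent.H63.MM.Orb

/-! Logarithmic coordinates on a subfield at a place, and their transport by automorphisms. -/

set_option autoImplicit false
set_option linter.overlappingInstances false
set_option linter.unusedSectionVars false

open FF IntermediateField Pool.Agent.W619.PQ Pool.Agent.W619.PL Pool.Agent.W619.TW
  Pool.Agent.W603.LV Pool.Agent.W619.Y

namespace Pool.Agent.H63.MM

section

variable {k K : Type} [Field k] [CharZero k] [Field K] [Algebra k K]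

/-- Pluricanonical forms which are regular at `Q` vanish there to the order at least `m` on
logarithmic vector fields. -/
theorem ge_log [Algebra.EssFiniteType k K] {d m : ℕ} (hd : Algebra.trdeg k K = d) (Q : Place k K)
    (hQ : IsDivisorial Q d) {η : (Fin d → Derivation k K K) → K} (hη : IsPluriForm k K d m η)
    (hreg : RegularAt Q d η) (Λ : Fin d → Derivation k K K) (hΛ : ∀ j z, Q.Reg (Λ j z / z)) :
    Ge Q m (η Λ) := by
  classical
  obtain ⟨y, E, i0, hy, hE, h1, hr, hp⟩ := pFRAME k K d hd (fun y hy => fin_over y hy) Q hQ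
  rw [pluri_frame hη y hy E hE Λ]
  have hy0 : y i0 ≠ 0 := by
    intro h
    rw [h, Q.ord_zero] at h1
    omega
  let B : Matrix (Fin d) (Fin d) K := Matrix.of fun a b =>
    if b = i0 then Λ a (y b) / y i0 else Λ a (y b)
  have hA : (Matrix.of fun a b => Λ a (y b)) =
      Matrix.of fun a b => (if b = i0 then y i0 else 1) * B a b := by
    ext a b
    simp only [Matrix.of_apply, B]
    by_cases hb : b = i0
    · rw [if_pos hb, if_pos hb, mul_div_cancel₀ _ hy0]
    · rw [if_neg hb, if_neg hb, one_mul]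
  have hdet : (Matrix.of fun a b => Λ a (y b)).det = y i0 * B.det := by
    rw [hA, Matrix.det_mul_row, Finset.prod_ite_eq' Finset.univ i0 (fun _ => y i0),
      if_pos (Finset.mem_univ _)]
  have hB : Ge Q 0 B.det := by
    apply Pool.Agent.W619.PQ.ge_det
    intro a b
    simp only [B, Matrix.of_apply]
    by_cases hb : b = i0
    · rw [if_pos hb, hb]
      exact hΛ a (y i0)
    · rw [if_neg hb]
      by_cases h0 : y b = 0
      · left
        rw [h0, map_zero]
      · have h5 : Ge Q 0 (Λ a (y b) / y b) := hΛ a (y b)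
        have h6 := h5.mul (hr b : Ge Q 0 (y b))
        rwa [div_mul_cancel₀ _ h0, add_zero] at h6
  have h2 : Ge Q 1 (y i0) := Or.inr h1.ge
  have h3 : Ge Q 1 (Matrix.of fun a b => Λ a (y b)).det := by
    rw [hdet]
    simpa using h2.mul hB
  have h4 := (h3.pow m).mul (hreg E hp : Ge Q 0 (η E))
  simpa using h4

end

section

variable {k L : Type} [Field k] [Field L] [Algebra k L]

/-- `a` are coordinates, in the subfield `Q` of `M`, on the variety with function field `M`, which
are regular at `w`; there are dual vector fields which are logarithmic at `w`, the first one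
normalized by the first coordinate if `w` is not trivial on `M`. -/
def Frm (w : Place k L) (Q M : IntermediateField k L) (n : ℕ) (a : ℕ → L) : Prop :=
  ∃ (y : Fin n → M) (Λ : Fin n → Derivation k M M) (c0 : Fin n → M),
    (∀ c, a c ∈ Q) ∧ (∀ c, w.Reg (a c)) ∧ (∀ c : Fin n, ((y c : M) : L) = a c) ∧
    IsTranscendenceBasis k y ∧
    (∀ c : Fin n, ((∃ z ∈ M, w.ord z ≠ 0) ∧ (c : ℕ) = 0 → c0 c = y c) ∧
      (¬ ((∃ z ∈ M, w.ord z ≠ 0) ∧ (c : ℕ) = 0) → c0 c = 1)) ∧ (∀ c, c0 c ≠ 0) ∧
    (∀ c c', Λ c (y c') = if c = c' then c0 c else 0) ∧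
    ∀ c (z : M), w.Reg (((Λ c z : M) : L) / (z : L))

theorem Frm.map {w : Place k L} {Q M Q' M' : IntermediateField k L} {n : ℕ} {a : ℕ → L}
    (g : L ≃ₐ[k] L) (hw : ∀ z, w.ord (g z) = w.ord z) (hQ : ∀ z ∈ Q, g z ∈ Q')
    (hM : ∀ z ∈ M, g z ∈ M') (hM' : ∀ z ∈ M', ∃ z' ∈ M, g z' = z) (h : Frm w Q M n a) :
    Frm w Q' M' n (fun c => g (a c)) := by
  obtain ⟨y, Λ, c0, h1, h2, h3, h4, h5, h6, h7, h8⟩ := h
  have hmap : M.map (g : L →ₐ[k] L) = M' := by
    ext z
    constructor
    · rintro ⟨z', hz', rfl⟩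
      exact hM z' hz'
    · intro hz
      obtain ⟨z', hz', rfl⟩ := hM' z hz
      exact ⟨z', hz', rfl⟩
  let e : M ≃ₐ[k] M' := (IntermediateField.intermediateFieldMap g M).trans
    (IntermediateField.equivOfEq hmap)
  have he : ∀ z : M, ((e z : M') : L) = g (z : L) := fun z => rfl
  have hes : ∀ z : M', g ((e.symm z : M) : L) = (z : L) := fun z => by
    rw [← he, e.apply_symm_apply]
  have hnt : (∃ z ∈ M', w.ord z ≠ 0) ↔ ∃ z ∈ M, w.ord z ≠ 0 := by
    constructor
    · rintro ⟨z, hz, hz0⟩
      obtain ⟨z', hz', rfl⟩ := hM' z hz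
      exact ⟨z', hz', by rwa [hw] at hz0⟩
    · rintro ⟨z, hz, hz0⟩
      exact ⟨g z, hM z hz, by rwa [hw]⟩
  have hreg : ∀ z, w.Reg (g z) ↔ w.Reg z := by
    intro z
    unfold Place.Reg
    rw [hw, map_eq_zero_iff g g.injective]
  refine ⟨fun c => e (y c), fun c => Pool.Agent.W824.PG.cDer e (Λ c), fun c => e (c0 c),
    fun c => hQ _ (h1 c), fun c => (hreg _).2 (h2 c), fun c => ?_, e.isTranscendenceBasis h4,
    fun c => ⟨fun h => ?_, fun h => ?_⟩, fun c => ?_, fun c c' => ?_, fun c z => ?_⟩
  · rw [he, h3]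
  · rw [hnt] at h
    exact congrArg e ((h5 c).1 h)
  · rw [hnt] at h
    exact (congrArg e ((h5 c).2 h)).trans (map_one e)
  · exact (map_ne_zero e).2 (h6 c)
  · rw [Pool.Agent.W824.PG.cDer_apply, e.symm_apply_apply, h7]
    split_ifs
    · rfl
    · exact map_zero e
  · rw [Pool.Agent.W824.PG.cDer_apply, he]
    have h9 := h8 c (e.symm z)
    rw [← hreg, map_div₀, hes] at h9
    exact h9

end

section

variable {k K M L : Type} [Field k] [CharZero k] [Field K] [Field M] [Field L] [Algebra k K]
  [Algebra k M] [Algebra k L] [Algebra K M] [Algebra M L] [Algebra K L] [IsScalarTower k K M]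
  [IsScalarTower k M L] [IsScalarTower k K L] [IsScalarTower K M L] [FiniteDimensional K M]
  [Algebra.EssFiniteType k M]

open scoped Classical in
theorem exists_frm_aux (w : Place k L) (N n : ℕ) (hN : Algebra.trdeg k L = N)
    (hn : Algebra.trdeg k M = n) (hw : IsDivisorial w N) :
    ∃ (y : Fin n → K) (Λ : Fin n → Derivation k M M), IsTranscendenceBasis k y ∧
      (∀ c, y c ≠ 0) ∧ (∀ c, w.Reg (algebraMap K L (y c))) ∧
      (∀ c c', Λ c (algebraMap K M (y c')) = if c = c' then
        (if (∃ z : M, w.ord (algebraMap M L z) ≠ 0) ∧ (c : ℕ) = 0 then algebraMap K M (y c) else 1)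
        else 0) ∧
      ∀ c (z : M), w.Reg (algebraMap M L (Λ c z) / algebraMap M L z) := by
  have hessK : Algebra.EssFiniteType k K := Q36.SD.ess_below (K := M)
  have hnK : Algebra.trdeg k K = n := Q36.SD.trdeg_below (K := M) hn
  by_cases hnt : ∃ z : M, w.ord (algebraMap M L z) ≠ 0
  · obtain ⟨f, q, hq⟩ := exists_over (K := M) w hnt
    obtain ⟨f', R, hR⟩ := Pool.Agent.W73.PG.PULL.exists_over' (K := K) q
    have hwR : Over w R (f * f') := over_trans hq hR
    have hdiv : IsDivisorial R n := pDIVR k K L n N R w _ hnK hN hwR hw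
    obtain ⟨y, E, i0, hy, hE, h1, hr, hp⟩ := pFRAME k K n hnK (fun y hy => fin_over y hy) R hdiv
    have hn0 : 0 < n := i0.pos
    let j0 : Fin n := ⟨0, hn0⟩
    let π : Equiv.Perm (Fin n) := Equiv.swap i0 j0
    have hπ : π j0 = i0 := Equiv.swap_apply_right _ _
    have hj0 : ∀ c : Fin n, (c : ℕ) = 0 ↔ c = j0 := fun c => by
      rw [Fin.ext_iff]
    have hy0 : ∀ c, y c ≠ 0 := by
      intro c h
      exact hy.1.ne_zero c h
    have ht : R.ord (y (π j0)) = 1 := by rw [hπ]; exact h1
    let E0 : Fin n → Derivation k K K := fun c => if c = j0 then y (π j0) • E (π c) else E (π c)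
    have hE0 : ∀ c c', E0 c (y (π c')) = if c = c' then (if c = j0 then y (π c) else 1) else 0 := by
      intro c c'
      by_cases hc : c = j0
      · simp only [E0, if_pos hc]
        change y (π j0) * E (π c) (y (π c')) = _
        rw [hE]
        by_cases hcc : c = c'
        · rw [if_pos hcc, if_pos (by rw [hcc]), mul_one, hc]
        · rw [if_neg hcc, if_neg (fun h => hcc (π.injective h)), mul_zero]
      · simp only [E0, if_neg hc]
        rw [hE]
        by_cases hcc : c = c'
        · rw [if_pos hcc, if_pos (by rw [hcc])]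
        · rw [if_neg hcc, if_neg (fun h => hcc (π.injective h))]
    have hpres : ∀ c, Pres R (E0 c) := by
      intro c
      by_cases hc : c = j0
      · simp only [E0, if_pos hc]
        intro x hx
        have h2 : Ge R 0 (y (π j0)) := hr _
        have h3 : Ge R 0 (E (π c) x) := hp _ x hx
        have h4 := h2.mul h3
        rw [add_zero] at h4
        exact h4
      · simp only [E0, if_neg hc]
        exact hp _
    have hlog : ∀ c x, R.Reg (E0 c x / x) := by
      intro c
      refine log_of_pres R (E0 c) (hpres c) (hy0 _) ht ?_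
      rw [hE0]
      by_cases hc : c = j0
      · rw [if_pos hc, if_pos hc, hc, div_self (hy0 _)]
        exact R.reg_one
      · rw [if_neg hc, zero_div]
        exact R.reg_zero
    choose Λ hΛ using fun c => (pEXT k K M n hnK (E0 c))
    refine ⟨fun c => y (π c), Λ, ?_, fun c => hy0 _, fun c => hwR.reg.2 (hr _), fun c c' => ?_,
      fun c z => ?_⟩
    · exact (isTranscendenceBasis_equiv π).2 hy
    · rw [(hΛ c).1, hE0]
      by_cases hc : c = c'
      · rw [if_pos hc, if_pos hc]
        by_cases hc0 : c = j0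
        · rw [if_pos hc0, if_pos ⟨hnt, (hj0 c).2 hc0⟩]
        · rw [if_neg hc0, if_neg (fun h => hc0 ((hj0 c).1 h.2)), map_one]
      · rw [if_neg hc, if_neg hc, map_zero]
    · rw [← map_div₀]
      refine hq.reg.2 ?_
      refine pLOG k K M R q f' hR (Λ c) (fun x => ?_) z
      rw [(hΛ c).1, ← map_div₀]
      exact hR.reg.2 (hlog c x)
  · have hnt' := hnt
    push Not at hnt'
    obtain ⟨y, hy⟩ := exists_fin_basis (k := k) n hnK
    have hyM : IsTranscendenceBasis k (fun c => algebraMap K M (y c)) := hy.algebraMap_comp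
    choose E hE using fun j => exists_dual _ hyM j
    refine ⟨y, E, hy, fun c h => hy.1.ne_zero c h, fun c => ?_, fun c c' => ?_, fun c z => ?_⟩
    · rw [IsScalarTower.algebraMap_apply K M L]
      exact Or.inr (hnt' _).ge
    · rw [hE]
      by_cases hc : c = c'
      · rw [if_pos hc.symm, if_pos hc, if_neg (fun h => hnt h.1)]
      · rw [if_neg (Ne.symm hc), if_neg hc]
    · rw [← map_div₀]
      exact Or.inr (hnt' _).ge

end

section

variable {k L : Type} [Field k] [CharZero k] [Field L] [Algebra k L]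

theorem exists_frm (w : Place k L) (N n : ℕ) (hN : Algebra.trdeg k L = N)
    (hw : IsDivisorial w N) (Q M : IntermediateField k L) (hQM : Q ≤ M)
    (hint : ∀ z ∈ M, IsIntegral Q z) [Algebra.EssFiniteType k M] (hn : Algebra.trdeg k M = n) :
    ∃ a, Frm w Q M n a := by
  classical
  let _ : Algebra Q M := (IntermediateField.inclusion hQM).toRingHom.toAlgebra
  have t1 : IsScalarTower k Q M := IsScalarTower.of_algebraMap_eq fun c => rfl
  have t2 : IsScalarTower Q M L := IsScalarTower.of_algebraMap_eq fun c => rfl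
  have halg : Algebra.IsAlgebraic Q M := ⟨fun z => by
    have h1 := hint z z.2
    have h2 : IsIntegral Q z := by
      have h3 : IsIntegral Q (algebraMap M L z) := h1
      exact (isIntegral_algebraMap_iff (algebraMap M L).injective).1 h3
    exact h2.isAlgebraic⟩
  have hfd : FiniteDimensional Q M := by
    have h1 : Algebra.EssFiniteType Q M := Algebra.EssFiniteType.of_comp k Q M
    obtain ⟨s, hs⟩ := IntermediateField.fg_top Q M
    have h2 : FiniteDimensional Q (IntermediateField.adjoin Q (s : Set M)) :=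
      IntermediateField.finiteDimensional_adjoin fun x _ => (halg.isAlgebraic x).isIntegral
    rw [hs] at h2
    exact h2.equiv IntermediateField.topEquiv.toLinearEquiv
  obtain ⟨y, Λ, h1, h2, h3, h4, h5⟩ := exists_frm_aux (K := Q) (M := M) w N n hN hn hw
  have hyM : IsTranscendenceBasis k (fun c => algebraMap Q M (y c)) := h1.algebraMap_comp
  have hnt : (∃ z : M, w.ord (algebraMap M L z) ≠ 0) ↔ ∃ z ∈ M, w.ord z ≠ 0 := by
    constructor
    · rintro ⟨z, hz⟩
      exact ⟨z, z.2, hz⟩
    · rintro ⟨z, hz, hz0⟩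
      exact ⟨⟨z, hz⟩, hz0⟩
  refine ⟨fun c => if h : c < n then (y ⟨c, h⟩ : L) else 1, fun c => algebraMap Q M (y c), Λ,
    fun c => if (∃ z ∈ M, w.ord z ≠ 0) ∧ (c : ℕ) = 0 then algebraMap Q M (y c) else 1,
    fun c => ?_, fun c => ?_, fun c => ?_, hyM, fun c => ⟨fun h => if_pos h, fun h => if_neg h⟩,
    fun c => ?_, fun c c' => ?_, h5⟩
  · by_cases h : c < n
    · simp only [dif_pos h]
      exact (y ⟨c, h⟩).2
    · simp only [dif_neg h]
      exact one_mem _
  · by_cases h : c < n
    · simp only [dif_pos h]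
      exact h3 ⟨c, h⟩
    · simp only [dif_neg h]
      exact w.reg_one
  · simp only [dif_pos c.2]
    rfl
  · dsimp only
    split_ifs
    · exact (map_ne_zero _).2 (h2 c)
    · exact one_ne_zero
  · rw [h4]
    simp only [hnt]

/-- The value of a regular form on logarithmic vector fields. -/
theorem ge_value (w : Place k L) (N n m : ℕ) (hN : Algebra.trdeg k L = N)
    (hw : IsDivisorial w N) (M : IntermediateField k L) [Algebra.EssFiniteType k M]
    (hn : Algebra.trdeg k M = n) {η : (Fin n → Derivation k M M) → M}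
    (hη : IsPluriForm k M n m η) (hreg : ∀ u : Place k M, IsDivisorial u n → RegularAt u n η)
    (Λ : Fin n → Derivation k M M) (hΛ : ∀ c (z : M), w.Reg (((Λ c z : M) : L) / (z : L)))
    {f : ℕ} {q : Place k M} (hq : Over w q f) : Ge w (m * f) ((η Λ : M) : L) := by
  have hdiv : IsDivisorial q n := pDIVR k M L n N q w f hn hN hq hw
  have h1 : Ge q m (η Λ) := by
    refine ge_log hn q hdiv hη (hreg q hdiv) Λ fun c z => ?_
    have h2 := hΛ c z
    have h3 : (((Λ c z : M) : L) / (z : L)) = algebraMap M L (Λ c z / z) := by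
      rw [map_div₀]; rfl
    rw [h3] at h2
    exact hq.reg.1 h2
  rcases h1 with h1 | h1
  · left
    rw [h1]; rfl
  · right
    have h4 : w.ord ((η Λ : M) : L) = f * q.ord (η Λ) := hq.2 _
    rw [h4]
    have : (0 : ℤ) ≤ f := by positivity
    nlinarith

end

end Pool.Agent.H63.MM
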