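import Pool.Agent.H63.MM.Reg
import Pool.Graph.R_seed8.W619.Y.KodT

/-! Pluricanonical forms on the quotient of a product by a group permuting the factors. -/

set_option autoImplicit false
set_option linter.overlappingInstances false
set_option linter.unusedSectionVars false

open FF IntermediateField Pool.Agent.W619.PQ Pool.Agent.W619.PL Pool.Agent.W619.TW
  Pool.Agent.W603.LV Pool.Agent.W619.Y Pool.Agent.W391.PG.REGLOG Q36.GV Pool.Agent.W672.PG
open Function (minimalPeriod)

namespace Pool.Agent.H63.MM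

section

variable {k K : Type} [Field k] [CharZero k] [IsAlgClosed k] [Field K] [Algebra k K]

/-- Forms with independent ratios of any weight which is a multiple of the given one. -/
theorem kodTr_mul {n a m : ℕ} {ω : Fin (a + 1) → (Fin n → Derivation k K K) → K}
    (hω : ∀ l, IsSec k K n (fun _ => False) {1} m 0 (ω l)) {D : Fin n → Derivation k K K}
    (hD : ∀ l, ω l D ≠ 0) (hind : AlgebraicIndependent k fun l : Fin a => ω l.succ D / ω 0 D)
    (r : ℕ) (hr : 1 ≤ r) (y : Fin n → K) (E : Fin n → Derivation k K K)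
    (hy : IsTranscendenceBasis k y) (hE : ∀ i j, E i (y j) = if i = j then 1 else 0) :
    ∃ η : Fin (a + 1) → (Fin n → Derivation k K K) → K,
      (∀ l, IsPluriForm k K n (m * r) (η l)) ∧
      (∀ l, ∀ u : Place k K, IsDivisorial u n → RegularAt u n (η l)) ∧ (∀ l, η l E ≠ 0) ∧
      AlgebraicIndependent k fun l : Fin a => η l.succ E / η 0 E := by
  have hreg : ∀ l, ∀ u : Place k K, IsDivisorial u n → RegularAt u n (ω l) := fun l =>
    (reg_of_sec (hω l)).2
  have hE0 : ∀ l, ω l E ≠ 0 := by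
    intro l h
    apply hD l
    rw [pluri_frame (hω l).1 y hy E hE D, h, mul_zero]
  have hdet : (Matrix.of fun a b => D a (y b)).det ^ m ≠ 0 := by
    intro h
    apply hD 0
    rw [pluri_frame (hω 0).1 y hy E hE D, h, zero_mul]
  refine ⟨fun l D => ω l D * ω 0 D ^ (r - 1), fun l A D => ?_, fun l u hu D hD => ?_, fun l => ?_,
    ?_⟩
  · change ω l _ * ω 0 _ ^ (r - 1) = _
    rw [(hω l).1 A D, (hω 0).1 A D, mul_pow, ← pow_mul]
    have h1 : A.det ^ (m * r) = A.det ^ m * A.det ^ (m * (r - 1)) := by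
      rw [← pow_add]
      congr 1
      obtain ⟨r', rfl⟩ := Nat.exists_eq_add_of_le hr
      rw [Nat.add_sub_cancel_left]
      ring
    rw [h1]
    ring
  · have h1 : Ge u 0 (ω l D) := hreg l u hu D hD
    have h2 : Ge u 0 (ω 0 D) := hreg 0 u hu D hD
    have h3 := h1.mul (h2.pow (r - 1))
    have h4 : Ge u 0 (ω l D * ω 0 D ^ (r - 1)) := by simpa using h3
    exact h4
  · exact mul_ne_zero (hE0 l) (pow_ne_zero _ (hE0 0))
  · have h1 : (fun l : Fin a => (ω l.succ E * ω 0 E ^ (r - 1)) / (ω 0 E * ω 0 E ^ (r - 1))) =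
        fun l : Fin a => ω l.succ D / ω 0 D := by
      funext l
      rw [mul_div_mul_right _ _ (pow_ne_zero _ (hE0 0)), pluri_frame (hω l.succ).1 y hy E hE D,
        pluri_frame (hω 0).1 y hy E hE D, mul_div_mul_left _ _ hdet]
    change AlgebraicIndependent k
      (fun l : Fin a => (ω l.succ E * ω 0 E ^ (r - 1)) / (ω 0 E * ω 0 E ^ (r - 1)))
    rw [h1]
    exact hind

end

section

variable {k L : Type} [Field k] [CharZero k] [IsAlgClosed k] [Field L] [Algebra k L] {s : ℕ}
  {d : Fin s → ℕ} (G : Subgroup (L ≃ₐ[k] L)) [Finite G] (σ : G →* Equiv.Perm (Fin s))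
  (W : Fin s → IntermediateField k L) [hess : ∀ i, Algebra.EssFiniteType k (W i)]

theorem reg_all [Algebra.EssFiniteType k L] (hd : ∀ i, Algebra.trdeg k (W i) = d i)
    (hL : Algebra.trdeg k L = (∑ i, d i : ℕ))
    (hσ : ∀ (g : G) i, ∀ z ∈ W i, (g : L ≃ₐ[k] L) z ∈ W (σ g i))
    (hG : ∀ g : G, g ≠ 1 → 1 ≤ age (σ g) W d (g : L ≃ₐ[k] L) ∨ FreeOn G σ W d g)
    (y : ∀ i, Fin (d i) → W i) (E : ∀ i, Fin (d i) → Derivation k (W i) (W i))
    (hy : ∀ i, IsTranscendenceBasis k (y i))
    (hE : ∀ i a b, E i a (y i b) = if a = b then 1 else 0)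
    (v : Place k (fixedField G)) (hv : IsDivisorial v (∑ i, d i)) :
    ∃ (w : Place k L) (e : ℕ), Over w v e ∧ ∀ (m : ℕ) (_ : 1 ≤ m)
      (η : ∀ i, (Fin (d i) → Derivation k (W i) (W i)) → W i)
      (_ : ∀ i, IsPluriForm k (W i) (d i) m (η i))
      (_ : ∀ i, ∀ u : Place k (W i), IsDivisorial u (d i) → RegularAt u (d i) (η i))
      (D : Fin (∑ i, d i) → Derivation k (fixedField G) (fixedField G))
      (D' : Fin (∑ i, d i) → Derivation k L L), (∀ j, Pres v (D j)) →
      (∀ j (f : fixedField G), D' j (f : L) = (D j f : L)) → ∀ g : G,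
      Ge w 0 ((g : L ≃ₐ[k] L) ((∏ i, ((η i (E i) : W i) : L)) *
        (Matrix.of fun a b => D' a (coords W y b)).det ^ m)) := by
  obtain ⟨w, e, I, hwv, hIe, hI⟩ := exists_inertia G v
  obtain ⟨g0, hgI, hgord, ζ, hζ, hgen⟩ := exists_rot_generator w I hI
  rw [hIe] at hgord hζ
  rw [Subgroup.orderOf_coe] at hgord
  refine ⟨w, e, hwv, ?_⟩
  intro m hm η hη hreg D D' hD hDD g
  rw [← Pool.Agent.W140.PG.REG2.ge_comp]
  have hwv' := Pool.Agent.W140.PG.REG2.over_comp hwv g
  refine core G σ W m y E hy hE η hη hreg hd hL hσ hm v hv (w.comp (g : L ≃ₐ[k] L)) e hwv'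
    (g⁻¹ * g0 * g) ζ ?_ hζ ?_ (hG _) D D' hD hDD
  · rw [← hgord]
    have h5 : g⁻¹ * g0 * g = MulAut.conj g⁻¹ g0 := by
      rw [MulAut.conj_apply, inv_inv]
    rw [h5]
    exact MulEquiv.orderOf_eq (MulAut.conj g⁻¹) g0
  · intro z hz
    rw [Pool.Agent.W140.PG.REG2.ge_comp, Place.comp_ord, map_sub, map_mul, AlgEquiv.commutes]
    have h5 := hgen ((g : L ≃ₐ[k] L) z) (by simpa using hz)
    have h6 : (g : L ≃ₐ[k] L) (((g⁻¹ * g0 * g : G) : L ≃ₐ[k] L) z) =
        (g0 : L ≃ₐ[k] L) ((g : L ≃ₐ[k] L) z) := by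
      have h7 : (g : L ≃ₐ[k] L) * ((g⁻¹ * g0 * g : G) : L ≃ₐ[k] L) =
          (g0 : L ≃ₐ[k] L) * (g : L ≃ₐ[k] L) := by
        push_cast
        group
      exact congrArg (fun f : L ≃ₐ[k] L => f z) h7
    rw [h6]
    exact h5

open scoped Classical in
/-- **The lower bound for the Kodaira dimension of the quotient.** -/
theorem kodTr_quotient (hd : ∀ i, Algebra.trdeg k (W i) = d i)
    (hL : Algebra.trdeg k L = (∑ i, d i : ℕ)) (hsup : ⨆ i, W i = ⊤)
    (hσ : ∀ (g : G) i, ∀ z ∈ W i, (g : L ≃ₐ[k] L) z ∈ W (σ g i))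
    (hG : ∀ g : G, g ≠ 1 → 1 ≤ age (σ g) W d (g : L ≃ₐ[k] L) ∨ FreeOn G σ W d g)
    {a : Fin s → ℕ} (ha : ∀ i, KodTr k (W i) (d i) (a i)) :
    KodTr k (fixedField G) (∑ i, d i) (∑ i, a i) := by
  have hessL : Algebra.EssFiniteType k L := ess_supW W hsup
  have halgK := Pool.Agent.W721.PG.EFF2.alg_fixed G
  have := Fintype.ofFinite G
  choose y E hy hE using fun i => Pool.Agent.Y172.exists_crd (hd i)
  choose mi hmi ω hω Di hDi hind using ha
  -- a common weight
  let m : ℕ := ∏ i, mi i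
  have hm : 1 ≤ m := Nat.one_le_iff_ne_zero.2 (Finset.prod_ne_zero_iff.2 fun i _ => by
    have := hmi i
    omega)
  have hmr : ∀ i, ∃ r, 1 ≤ r ∧ mi i * r = m := by
    intro i
    obtain ⟨r, hr⟩ := Finset.dvd_prod_of_mem mi (Finset.mem_univ i)
    refine ⟨r, ?_, hr.symm⟩
    rw [Nat.one_le_iff_ne_zero]
    rintro rfl
    rw [mul_zero] at hr
    change m = 0 at hr
    omega
  have hforms : ∀ i, ∃ η : Fin (a i + 1) → (Fin (d i) → Derivation k (W i) (W i)) → W i,
      (∀ l, IsPluriForm k (W i) (d i) m (η l)) ∧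
      (∀ l, ∀ u : Place k (W i), IsDivisorial u (d i) → RegularAt u (d i) (η l)) ∧
      (∀ l, η l (E i) ≠ 0) ∧
      AlgebraicIndependent k fun l : Fin (a i) => η l.succ (E i) / η 0 (E i) := by
    intro i
    obtain ⟨r, hr, hr2⟩ := hmr i
    have h1 := kodTr_mul (hω i) (hDi i) (hind i) r hr (y i) (E i) (hy i) (hE i)
    rw [hr2] at h1
    exact h1
  choose η hη hηr hη0 hηi using hforms
  -- the coordinates
  have halg := alg_of_sup' W hsup
  have hbasis : IsTranscendenceBasis k (coords W y) := coords_basis W hL halg y hy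
  obtain ⟨hnK, z, hz⟩ := Pool.Agent.W721.PG.EFF2.exists_basis (fixedField G) (∑ i, d i) hL
  choose ext hext hext2 hext3 using pEXT k (fixedField G) L (∑ i, d i) hnK
  obtain ⟨D0, hD0'⟩ := Pool.Agent.W721.PG.EFF2.exists_det (fixedField G) (∑ i, d i) z hz _ hbasis
    ext hext
  have hD0 : (Matrix.of fun a b => ext (D0 a) (coords W y b)).det ≠ 0 := by
    rw [← Matrix.det_transpose]
    exact hD0'
  have hfix : ∀ (g : G) (f : fixedField G), (g : L ≃ₐ[k] L) (algebraMap (fixedField G) L f) =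
      algebraMap (fixedField G) L f := fun g f => f.2 g
  -- the ratios
  let x : ∀ i, Fin (a i) → W i := fun i l => η i l.succ (E i) / η i 0 (E i)
  choose u hu gi hgi hgx using fun i => extend_basis (hd i) (hηi i)
  have hbu : IsTranscendenceBasis k (coords W u) := coords_basis W hL halg u hu
  let ratio : Fin (∑ i, a i) → L := fun l =>
    ((x (finSigmaFinEquiv.symm l).1 (finSigmaFinEquiv.symm l).2 : W _) : L)
  have hratio : AlgebraicIndependent k ratio := by
    have h1 := hbu.1.comp (fun l : Fin (∑ i, a i) => finSigmaFinEquiv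
      (⟨(finSigmaFinEquiv.symm l).1, gi _ (finSigmaFinEquiv.symm l).2⟩ :
        (i : Fin s) × Fin (d i))) (by
      intro l l' hll
      have h2 := finSigmaFinEquiv.injective hll
      apply finSigmaFinEquiv.symm.injective
      revert h2
      generalize (finSigmaFinEquiv.symm l : (i : Fin s) × Fin (a i)) = p
      generalize (finSigmaFinEquiv.symm l' : (i : Fin s) × Fin (a i)) = p'
      intro h2
      obtain ⟨i, c⟩ := p
      obtain ⟨i', c'⟩ := p'
      simp only [Sigma.mk.injEq] at h2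
      obtain ⟨h3, h4⟩ := h2
      subst h3
      rw [hgi i (eq_of_heq h4)])
    convert h1 using 1
    funext l
    rw [Function.comp_apply]
    unfold coords
    rw [Equiv.symm_apply_apply]
    change _ = ((u _ (gi _ _) : W _) : L)
    rw [hgx]
  -- the forms
  let f0 : ∀ i, (Fin (d i) → Derivation k (W i) (W i)) → W i := fun i => η i 0
  let fl : Fin (∑ i, a i) → ∀ i, (Fin (d i) → Derivation k (W i) (W i)) → W i := fun l =>
    Function.update f0 (finSigmaFinEquiv.symm l).1
      (η (finSigmaFinEquiv.symm l).1 (finSigmaFinEquiv.symm l).2.succ)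
  let ff : Fin (∑ i, a i + 1) → ∀ i, (Fin (d i) → Derivation k (W i) (W i)) → W i :=
    Fin.cons f0 fl
  have hff : ∀ l i, ∃ l', ff l i = η i l' := by
    intro l i
    refine Fin.cases ⟨0, rfl⟩ (fun l => ?_) l
    by_cases hi : i = (finSigmaFinEquiv.symm l).1
    · subst hi
      refine ⟨(finSigmaFinEquiv.symm l).2.succ, ?_⟩
      change fl l _ = _
      simp only [fl, Function.update_self]
    · refine ⟨0, ?_⟩
      change fl l i = _
      simp only [fl, Function.update_of_ne hi]
      rfl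
  let B : Fin (∑ i, a i + 1) → L := fun l => ∏ i, ((ff l i (E i) : W i) : L)
  have hfL : ∀ l i, ((ff l i (E i) : W i) : L) ≠ 0 := by
    intro l i h
    obtain ⟨l', hl'⟩ := hff l i
    rw [hl'] at h
    exact hη0 i l' (Subtype.ext h)
  have hB0 : ∀ l, B l ≠ 0 := fun l => Finset.prod_ne_zero_iff.2 fun i _ => hfL l i
  have hBr : ∀ l : Fin (∑ i, a i), B l.succ / B 0 = ratio l := by
    intro l
    change (∏ i, ((fl l i (E i) : W i) : L)) / (∏ i, ((f0 i (E i) : W i) : L)) = _
    rw [← Finset.mul_prod_erase Finset.univ _ (Finset.mem_univ (finSigmaFinEquiv.symm l).1),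
      ← Finset.mul_prod_erase Finset.univ (fun i => ((f0 i (E i) : W i) : L))
        (Finset.mem_univ (finSigmaFinEquiv.symm l).1)]
    have h1 : ∏ i ∈ Finset.univ.erase (finSigmaFinEquiv.symm l).1, ((fl l i (E i) : W i) : L) =
        ∏ i ∈ Finset.univ.erase (finSigmaFinEquiv.symm l).1, ((f0 i (E i) : W i) : L) := by
      refine Finset.prod_congr rfl fun i hi => ?_
      simp only [fl, Function.update_of_ne (Finset.ne_of_mem_erase hi)]
    have h2 : ∏ i ∈ Finset.univ.erase (finSigmaFinEquiv.symm l).1,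
        ((f0 i (E i) : W i) : L) ≠ 0 := Finset.prod_ne_zero_iff.2 fun i _ => hfL 0 i
    rw [h1, mul_div_mul_right _ _ h2]
    simp only [fl, Function.update_self]
    rfl
  let V : (Fin (∑ i, d i) → Derivation k (fixedField G) (fixedField G)) →
      Fin (∑ i, a i + 1) → L :=
    fun D l => B l * (Matrix.of fun a b => ext (D a) (coords W y b)).det ^ m
  have hV0 : ∀ l, V D0 l ≠ 0 := fun l => mul_ne_zero (hB0 l) (pow_ne_zero _ hD0)
  have hVr : ∀ l : Fin (∑ i, a i), V D0 l.succ / V D0 0 = ratio l := by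
    intro l
    change B l.succ * _ / (B 0 * _) = _
    rw [mul_div_mul_right _ _ (pow_ne_zero _ hD0), hBr]
  have hVlin : ∀ (X : Matrix (Fin (∑ i, d i)) (Fin (∑ i, d i)) (fixedField G))
      (D : Fin (∑ i, d i) → Derivation k (fixedField G) (fixedField G)) l,
      V (fun i => ∑ j, X i j • D j) l = V D l * (algebraMap (fixedField G) L X.det) ^ m := by
    intro X D l
    have e1 : ∀ j, ext (∑ l, X j l • D l) = ∑ l, (algebraMap (fixedField G) L (X j l)) •
        ext (D l) := by
      intro j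
      symm
      apply hext2
      intro f
      rw [Pool.Agent.W721.PG.EFF2.der_sum, Pool.Agent.W721.PG.EFF2.der_sum, map_sum]
      refine Finset.sum_congr rfl fun l _ => ?_
      rw [hext, map_mul]
    have e2 : (Matrix.of fun a b => ext (∑ l, X a l • D l) (coords W y b)) =
        (X.map (algebraMap (fixedField G) L)) *
          (Matrix.of fun a b => ext (D a) (coords W y b)) := by
      ext a b
      simp only [Matrix.of_apply, Matrix.mul_apply, Matrix.map_apply]
      rw [e1, Pool.Agent.W721.PG.EFF2.der_sum]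
    have e3 : (X.map (algebraMap (fixedField G) L)).det = algebraMap (fixedField G) L X.det := by
      rw [RingHom.map_det]
      rfl
    change B l * (Matrix.of fun a b => ext (∑ l, X a l • D l) (coords W y b)).det ^ m = _
    rw [e2, Matrix.det_mul, e3, mul_pow]
    change _ = B l * (Matrix.of fun a b => ext (D a) (coords W y b)).det ^ m * _
    ring
  -- symmetric functions
  obtain ⟨R, t, r, q, hR, hrq, hs0, hsi⟩ := Pool.Agent.W513.PG.main.{0, 0} k L G 1 (∑ i, a i)
    (fun g l => (g : L ≃ₐ[k] L) (V D0 l)) (fun l => by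
      change V D0 l ≠ 0
      exact hV0 l) (by
      have e1 : (fun l : Fin (∑ i, a i) => ((1 : G) : L ≃ₐ[k] L) (V D0 l.succ) /
          ((1 : G) : L ≃ₐ[k] L) (V D0 0)) = ratio := by
        funext l
        exact hVr l
      rw [e1]
      exact hratio)
  let sf : (Fin (∑ i, d i) → Derivation k (fixedField G) (fixedField G)) →
      Fin (∑ i, a i + 1) → L :=
    fun D j => esy (fun g : G => (g : L ≃ₐ[k] L) (V D (t j))) (r j) ^ q j
  have hs00 : sf D0 0 ≠ 0 := pow_ne_zero _ (hs0 0)
  have hsG : ∀ D j (g : G), (g : L ≃ₐ[k] L) (sf D j) = sf D j := by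
    intro D j g
    change (g : L ≃ₐ[k] L) (esy (fun g : G => (g : L ≃ₐ[k] L) (V D (t j))) (r j) ^ q j) = _
    rw [map_pow]
    congr 1
    exact esy_inv _ (g : L ≃ₐ[k] L) (Equiv.mulLeft g) (fun i => rfl) _
  have hsA : ∀ (X : Matrix (Fin (∑ i, d i)) (Fin (∑ i, d i)) (fixedField G))
      (D : Fin (∑ i, d i) → Derivation k (fixedField G) (fixedField G)) j,
      sf (fun i => ∑ j, X i j • D j) j =
        (algebraMap (fixedField G) L X.det) ^ (m * R) * sf D j := by
    intro X D j
    have e1 : (fun g : G => (g : L ≃ₐ[k] L) (V (fun i => ∑ j, X i j • D j) (t j))) =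
        fun g : G => (g : L ≃ₐ[k] L) (V D (t j)) * (algebraMap (fixedField G) L X.det) ^ m := by
      funext g
      rw [hVlin, map_mul, map_pow, hfix]
    change esy (fun g : G => (g : L ≃ₐ[k] L) (V (fun i => ∑ j, X i j • D j) (t j))) (r j) ^ q j =
      (algebraMap (fixedField G) L X.det) ^ (m * R) *
        esy (fun g : G => (g : L ≃ₐ[k] L) (V D (t j))) (r j) ^ q j
    rw [e1, esy_mul, mul_pow, ← pow_mul, ← pow_mul, hrq j]
  refine ⟨m * R, Nat.mul_pos hm hR, fun j D => ⟨sf D j, fun g => hsG D j g⟩,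
    fun l => ⟨?_, ?_, ?_⟩, D0, fun l h0 => ?_, ?_⟩
  · intro X D
    apply Subtype.ext
    change sf (fun i => ∑ j, X i j • D j) l =
      algebraMap (fixedField G) L (X.det ^ (m * R) * ⟨sf D l, fun g => hsG D l g⟩)
    rw [hsA, map_mul, map_pow]
    rfl
  · intro v hv _ D hD
    apply Pool.Agent.W721.PG.EFF2.dom_of_reg
    obtain ⟨w, ee, hwv, hreg⟩ := reg_all G σ W hd hL hσ hG y E hy hE v hv
    rw [← hwv.reg]
    have hVreg : ∀ l (g : G), Ge w 0 ((g : L ≃ₐ[k] L) (V D l)) := by
      intro l g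
      refine hreg m hm (ff l) (fun i => ?_) (fun i => ?_) D (fun j => ext (D j)) hD
        (fun j f => hext (D j) f) g
      · obtain ⟨l', hl'⟩ := hff l i
        rw [hl']
        exact hη i l'
      · obtain ⟨l', hl'⟩ := hff l i
        rw [hl']
        exact hηr i l'
    exact ge_pow0 (ge_esy _ (fun g => hVreg (t l) g) _) _
  · intro v _ hv
    exact hv.elim
  · exact pow_ne_zero _ (hs0 l) (congrArg Subtype.val h0)
  · have hsi' : AlgebraicIndependent k fun l : Fin (∑ i, a i) =>
        ((⟨sf D0 l.succ, fun g => hsG D0 l.succ g⟩ / ⟨sf D0 0, fun g => hsG D0 0 g⟩ :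
          fixedField G) : L) := hsi
    exact (AlgHom.algebraicIndependent_iff (fixedField G).val (Subtype.val_injective)).1 hsi'

end

end Pool.Agent.H63.MM
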