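import Pool.Agent.H63.MM.Frm
import Pool.Graph.R_seed8.W110.PG.DET

/-! The logarithmic estimate at a place, for a group permuting the factors of a product. -/

set_option autoImplicit false
set_option linter.overlappingInstances false
set_option linter.unusedSectionVars false

open FF IntermediateField Pool.Agent.W619.PQ Pool.Agent.W619.PL Pool.Agent.W619.TW
  Pool.Agent.W603.LV Pool.Agent.W619.Y Pool.Agent.W391.PG.REGLOG Q36.GV
open Function (minimalPeriod)

namespace Pool.Agent.H63.MM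

section

variable {k L : Type} [Field k] [Field L] [Algebra k L] {s : ℕ}

/-- `g` is the identity on the subfield `W`. -/
def TrivialOn (g : L ≃ₐ[k] L) (W : IntermediateField k L) : Prop := ∀ z ∈ W, g z = z

/-- The least `r > 0` such that `g ^ r` is the identity on `W`. -/
noncomputable def orderOn (g : L ≃ₐ[k] L) (W : IntermediateField k L) : ℕ :=
  sInf {r | 0 < r ∧ TrivialOn (g ^ r) W}

open scoped Classical in
/-- A lower bound for the age of `g` at its fixed points. Let `g` permute the factors `W i`, of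
dimensions `d i`, through `σ`, and let `l` be the length of the cycle of `i`. The contribution of
`i` is `d i (l - 1) / (2 l)`, and moreover `1 / r` if `g ^ l` is not the identity on `W i` and `r`
is the order of `g` on `W i`; so a cycle of length `l` of factors of dimension `d` contributes
`d (l - 1) / 2`, and moreover `1 / b` if `g ^ l` has the order `b > 1` on these factors. -/
noncomputable def age (σ : Equiv.Perm (Fin s)) (W : Fin s → IntermediateField k L) (d : Fin s → ℕ)
    (g : L ≃ₐ[k] L) : ℚ :=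
  ∑ i, ((d i : ℚ) / 2 * (1 - 1 / (minimalPeriod σ i : ℚ)) +
    if TrivialOn (g ^ minimalPeriod σ i) (W i) then 0 else 1 / (orderOn g (W i) : ℚ))

end

/-- determinants of block diagonal base changes -/
theorem det_sigma {R : Type} [CommRing R] {s : ℕ} {d : Fin s → ℕ}
    (Z : ∀ i, Matrix (Fin (d i)) (Fin (d i)) R)
    (T V : Fin (∑ i, d i) → ((i : Fin s) × Fin (d i)) → R)
    (h : ∀ a i l, T a ⟨i, l⟩ = ∑ c, Z i l c * V a ⟨i, c⟩) :
    (Matrix.of fun a b => T a (finSigmaFinEquiv.symm b)).det =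
      (∏ i, (Z i).det) * (Matrix.of fun a b => V a (finSigmaFinEquiv.symm b)).det := by
  classical
  have h1 : (Matrix.of fun a b => T a (finSigmaFinEquiv.symm b)) =
      (Matrix.of fun a b => V a (finSigmaFinEquiv.symm b)) *
        ((Matrix.blockDiagonal' Z).submatrix finSigmaFinEquiv.symm
          finSigmaFinEquiv.symm).transpose := by
    ext a b
    rw [Matrix.of_apply, Matrix.mul_apply]
    obtain ⟨⟨i, l⟩, rfl⟩ := (finSigmaFinEquiv (n := d)).surjective b
    rw [Equiv.symm_apply_apply, ← (finSigmaFinEquiv (n := d)).sum_comp]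
    rw [Fintype.sum_sigma]
    symm
    refine (Finset.sum_eq_single i ?_ ?_).trans ?_
    · intro j _ hj
      refine Finset.sum_eq_zero fun c _ => ?_
      rw [Matrix.transpose_apply, Matrix.submatrix_apply,
        Equiv.symm_apply_apply, Equiv.symm_apply_apply,
        Matrix.blockDiagonal'_apply_ne _ _ _ (Ne.symm hj), mul_zero]
    · intro h
      exact absurd (Finset.mem_univ i) h
    · rw [h]
      refine Finset.sum_congr rfl fun c _ => ?_
      rw [Matrix.of_apply, Matrix.transpose_apply, Matrix.submatrix_apply,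
        Equiv.symm_apply_apply, Equiv.symm_apply_apply, Matrix.blockDiagonal'_apply_eq]
      ring
  rw [h1, Matrix.det_mul, Matrix.det_transpose, Matrix.det_submatrix_equiv_self,
    Q36.GV.det_block, mul_comm]

section

variable {k L : Type} [Field k] [Field L] [Algebra k L] {s : ℕ}

theorem orderOn_spec {g : L ≃ₐ[k] L} (hg : IsOfFinOrder g) (W : IntermediateField k L) :
    0 < orderOn g W ∧ TrivialOn (g ^ orderOn g W) W := by
  have h : ({r | 0 < r ∧ TrivialOn (g ^ r) W} : Set ℕ).Nonempty :=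
    ⟨orderOf g, hg.orderOf_pos, fun z _ => by rw [pow_orderOf_eq_one]; rfl⟩
  exact Nat.sInf_mem h

variable (G : Subgroup (L ≃ₐ[k] L)) (σ : G →* Equiv.Perm (Fin s))
  (W : Fin s → IntermediateField k L) {d : Fin s → ℕ}

theorem map_back (hσ : ∀ (g : G) i, ∀ z ∈ W i, (g : L ≃ₐ[k] L) z ∈ W (σ g i)) (g : G) (i : Fin s)
    (z : L) (hz : z ∈ W (σ g i)) : ∃ z' ∈ W i, (g : L ≃ₐ[k] L) z' = z := by
  refine ⟨((g⁻¹ : G) : L ≃ₐ[k] L) z, ?_, ?_⟩
  · have h4 := hσ g⁻¹ _ z hz
    rw [← Equiv.Perm.mul_apply, ← map_mul, inv_mul_cancel, map_one] at h4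
    exact h4
  · have h5 : (g : L ≃ₐ[k] L) (((g⁻¹ : G) : L ≃ₐ[k] L) z) = ((g * g⁻¹ : G) : L ≃ₐ[k] L) z := rfl
    rw [h5, mul_inv_cancel]
    rfl

theorem dim_eq (hd : ∀ i, Algebra.trdeg k (W i) = d i)
    (hσ : ∀ (g : G) i, ∀ z ∈ W i, (g : L ≃ₐ[k] L) z ∈ W (σ g i)) (g : G) (i : Fin s) :
    d i = d (σ g i) := by
  have hmap : (W i).map ((g : L ≃ₐ[k] L) : L →ₐ[k] L) = W (σ g i) := by
    ext z
    constructor
    · rintro ⟨z', hz', rfl⟩
      exact hσ g i z' hz'
    · intro hz
      obtain ⟨z', hz', rfl⟩ := map_back G σ W hσ g i z hz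
      exact ⟨z', hz', rfl⟩
  let e : W i ≃ₐ[k] W (σ g i) := (IntermediateField.intermediateFieldMap (g : L ≃ₐ[k] L) (W i)).trans
    (IntermediateField.equivOfEq hmap)
  have h1 := e.trdeg_eq
  rw [hd, hd] at h1
  exact_mod_cast h1

end

section

variable {k L : Type} [Field k] [CharZero k] [IsAlgClosed k] [Field L] [Algebra k L] {s : ℕ}
  {d : Fin s → ℕ} (G : Subgroup (L ≃ₐ[k] L)) [Finite G] (σ : G →* Equiv.Perm (Fin s))
  (W : Fin s → IntermediateField k L) [hess : ∀ i, Algebra.EssFiniteType k (W i)]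

/-- Equivariant logarithmic coordinates. -/
theorem exists_eqv (hd : ∀ i, Algebra.trdeg k (W i) = d i) {N : ℕ} (hL : Algebra.trdeg k L = N)
    (hσ : ∀ (g : G) i, ∀ z ∈ W i, (g : L ≃ₐ[k] L) z ∈ W (σ g i)) (w : Place k L)
    (hw : IsDivisorial w N) (h : G) {ζ : k} (hζ0 : ζ ≠ 0) (hc : IsChar w (h : L ≃ₐ[k] L) ζ) :
    ∃ a : Fin s → ℕ → L, (∀ i, Frm w (Quo G σ W i) (W i) (d i) (a i)) ∧
      ∀ i c, (h : L ≃ₐ[k] L) (a i c) = a (σ h i) c := by
  have hordr : ∀ (r : ℕ) (z : L), w.ord (((h ^ r : G) : L ≃ₐ[k] L) z) = w.ord z := fun r z =>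
    (hc.pow hζ0 r).ord_eq (pow_ne_zero _ hζ0) z
  let Γ := Subgroup.zpowers h
  have hΓ : ∀ g : Γ, ∃ r : ℕ, (g : G) = h ^ r := by
    intro g
    have h4 := mem_powers_iff_mem_zpowers.2 g.2
    obtain ⟨r, hr⟩ := h4
    exact ⟨r, hr.symm⟩
  obtain ⟨a, ha1, ha2⟩ := pEQV.{0} Γ s (σ.comp Γ.subtype) (ℕ → L)
    (fun i a => Frm w (Quo G σ W i) (W i) (d i) a)
    (by
      intro g i a ha
      obtain ⟨r, hr⟩ := hΓ g
      have e1 : (σ.comp Γ.subtype) g i = σ (h ^ r) i := by
        rw [MonoidHom.comp_apply, Subgroup.coe_subtype, hr]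
      have e2 : g • a = fun c => ((h ^ r : G) : L ≃ₐ[k] L) (a c) := by
        have : g • a = fun c => ((g : G) : L ≃ₐ[k] L) (a c) := rfl
        rw [this, hr]
      rw [e1, e2, ← dim_eq G σ W hd hσ (h ^ r) i]
      exact ha.map _ (hordr r) (quo_smul G σ W hσ _ i) (hσ _ i) (map_back G σ W hσ _ i))
    (by
      rintro i a ⟨-, -, -, ha, -⟩ g hg
      funext c
      exact fix_of_quo G σ W (g : G) i (a c) (ha c) hg)
    (fun i => exists_frm w N (d i) hL hw _ _ inf_le_left
      (fun z hz => isIntegral_quo G σ W hσ i z hz) (hd i))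
  exact ⟨a, ha1, fun i c => congrFun (ha2 ⟨h, Subgroup.mem_zpowers h⟩ i) c⟩

end

end Pool.Agent.H63.MM
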