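import Pool.Agent.H63.MM.Loc

/-! The logarithmic estimate at a place, for a group permuting the factors of a product. -/

set_option autoImplicit false
set_option linter.overlappingInstances false
set_option linter.unusedSectionVars false

open FF IntermediateField Pool.Agent.W619.PQ Pool.Agent.W619.PL Pool.Agent.W619.TW
  Pool.Agent.W603.LV Pool.Agent.W619.Y Pool.Agent.W391.PG.REGLOG Q36.GV
open Function (minimalPeriod)

namespace Pool.Agent.H63.MM

section

variable {s : ℕ} {d : Fin s → ℕ} (σ : Equiv.Perm (Fin s)) (hd : ∀ i, d i = d (σ i))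

/-- the permutation of the coordinates -/
def permS : Equiv.Perm ((i : Fin s) × Fin (d i)) := Equiv.sigmaCongr σ fun i => finCongr (hd i)

theorem permS_apply (i : Fin s) (c : Fin (d i)) :
    permS σ hd ⟨i, c⟩ = ⟨σ i, Fin.cast (hd i) c⟩ := rfl

/-- the permutation of the coordinates -/
def permN : Equiv.Perm (Fin (∑ i, d i)) := finSigmaFinEquiv.permCongr (permS σ hd)

theorem permN_symm (b : Fin (∑ i, d i)) :
    finSigmaFinEquiv.symm (permN σ hd b) = permS σ hd (finSigmaFinEquiv.symm b) := by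
  unfold permN
  rw [Equiv.permCongr_apply, Equiv.symm_apply_apply]

/-- the factor and the number of a coordinate -/
def vmap (b : Fin (∑ i, d i)) : Fin s × ℕ :=
  ((finSigmaFinEquiv.symm b).1, ((finSigmaFinEquiv.symm b).2 : ℕ))

theorem vmap_injective : Function.Injective (vmap (d := d)) := by
  intro b b' h
  apply finSigmaFinEquiv.symm.injective
  unfold vmap at h
  generalize (finSigmaFinEquiv.symm b : (i : Fin s) × Fin (d i)) = p at h ⊢
  generalize (finSigmaFinEquiv.symm b' : (i : Fin s) × Fin (d i)) = p' at h ⊢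
  obtain ⟨i, c⟩ := p
  obtain ⟨i', c'⟩ := p'
  simp only [Prod.mk.injEq] at h
  obtain ⟨h1, h2⟩ := h
  subst h1
  rw [Fin.ext h2]

theorem vmap_perm (b : Fin (∑ i, d i)) :
    vmap (permN σ hd b) = (σ (vmap b).1, (vmap b).2) := by
  unfold vmap
  rw [permN_symm]
  rfl

theorem vmap_pow (r : ℕ) (b : Fin (∑ i, d i)) :
    vmap ((permN σ hd ^ r) b) = ((σ ^ r) (vmap b).1, (vmap b).2) := by
  induction r with
  | zero => rfl
  | succ r ih =>
    rw [pow_succ', Equiv.Perm.mul_apply, vmap_perm, ih, pow_succ', Equiv.Perm.mul_apply]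

theorem pow_apply_eq (r : ℕ) (b : Fin (∑ i, d i)) :
    (permN σ hd ^ r) b = b ↔ (σ ^ r) (vmap b).1 = (vmap b).1 := by
  constructor
  · intro h
    have h1 := vmap_pow σ hd r b
    rw [h] at h1
    exact (congrArg Prod.fst h1).symm
  · intro h
    apply vmap_injective
    rw [vmap_pow, h]

theorem period_eq (b : Fin (∑ i, d i)) :
    minimalPeriod (permN σ hd) b = minimalPeriod σ (vmap b).1 := by
  rw [Function.minimalPeriod_eq_minimalPeriod_iff]
  intro r
  have h := pow_apply_eq σ hd r b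
  unfold Function.IsPeriodicPt Function.IsFixedPt
  rw [← Equiv.Perm.coe_pow, ← Equiv.Perm.coe_pow]
  exact h

theorem sum_sigma_const (f : Fin s → ℚ) :
    ∑ b : Fin (∑ i, d i), f (vmap b).1 = ∑ i, (d i : ℚ) * f i := by
  rw [← (finSigmaFinEquiv (n := d)).sum_comp, Fintype.sum_sigma]
  refine Finset.sum_congr rfl fun i _ => ?_
  have h : ∀ c : Fin (d i), (vmap (finSigmaFinEquiv ⟨i, c⟩)).1 = i := fun c => by
    unfold vmap
    rw [Equiv.symm_apply_apply]
  simp only [h]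
  rw [Finset.sum_const, Finset.card_univ, Fintype.card_fin, nsmul_eq_mul]

/-- the number of orbits on the coordinates -/
theorem orbits_eq :
    (({i : Fin (∑ i, d i) | ∀ r : ℕ, i ≤ (permN σ hd ^ r) i}.ncard : ℕ) : ℚ) =
      ∑ i, (d i : ℚ) * (1 / (minimalPeriod σ i : ℚ)) := by
  rw [card_orbits]
  simp only [period_eq σ hd]
  exact sum_sigma_const fun i => 1 / (minimalPeriod σ i : ℚ)

end

section

variable {k L : Type} [Field k] [CharZero k] [IsAlgClosed k] [Field L] [Algebra k L] {s : ℕ}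
  {d : Fin s → ℕ} (G : Subgroup (L ≃ₐ[k] L)) [Finite G] (σ : G →* Equiv.Perm (Fin s))
  (W : Fin s → IntermediateField k L) [hess : ∀ i, Algebra.EssFiniteType k (W i)]

theorem fix_triv (hσ : ∀ (g : G) i, ∀ z ∈ W i, (g : L ≃ₐ[k] L) z ∈ W (σ g i)) {w : Place k L}
    {h : G} {ζ : k} (hζ0 : ζ ≠ 0) (hc : IsChar w (h : L ≃ₐ[k] L) ζ) (i : Fin s)
    (hi : ∀ z ∈ W i, w.ord z = 0) (r : ℕ) (hr : σ (h ^ r) i = i) :
    TrivialOn ((h : L ≃ₐ[k] L) ^ r) (W i) := by
  intro y hy
  by_contra hcon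
  have hy0 : y ≠ 0 := by
    rintro rfl
    exact hcon (map_zero _)
  have h4 := hc.pow hζ0 r y hy0
  rw [hi y hy, zpow_zero, map_one, one_mul, zero_add] at h4
  have h5 : ((h : L ≃ₐ[k] L) ^ r) y ∈ W i := by
    have := hσ (h ^ r) i y hy
    rw [hr] at this
    exact this
  have h6 := h4.resolve_left (sub_ne_zero.2 hcon)
  have h7 := hi _ (sub_mem h5 hy)
  omega

open scoped Classical in
/-- **The logarithmic estimate.** -/
theorem ge_loc (hd : ∀ i, Algebra.trdeg k (W i) = d i) (hL : Algebra.trdeg k L = (∑ i, d i : ℕ))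
    (hσ : ∀ (g : G) i, ∀ z ∈ W i, (g : L ≃ₐ[k] L) z ∈ W (σ g i)) (w : Place k L)
    (hw : IsDivisorial w (∑ i, d i)) (h : G) (ζ : k) (e : ℕ) (he : orderOf h = e)
    (hζ : IsPrimitiveRoot ζ e) (hc : IsChar w (h : L ≃ₐ[k] L) ζ)
    (hage : 1 ≤ age (σ h) W d (h : L ≃ₐ[k] L)) (m : ℕ) (hm : 1 ≤ m) (y : ∀ i, Fin (d i) → W i)
    (E : ∀ i, Fin (d i) → Derivation k (W i) (W i)) (hy : ∀ i, IsTranscendenceBasis k (y i))
    (hE : ∀ i a b, E i a (y i b) = if a = b then 1 else 0)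
    (η : ∀ i, (Fin (d i) → Derivation k (W i) (W i)) → W i)
    (hη : ∀ i, IsPluriForm k (W i) (d i) m (η i))
    (hreg : ∀ i, ∀ u : Place k (W i), IsDivisorial u (d i) → RegularAt u (d i) (η i))
    (D : Fin (∑ i, d i) → Derivation k L L) (hDlog : ∀ j z, w.Reg (D j z / z))
    (hDh : ∀ j z, (h : L ≃ₐ[k] L) (D j z) = D j ((h : L ≃ₐ[k] L) z)) :
    Ge w (m * e) ((∏ i, ((η i (E i) : W i) : L)) *
      (Matrix.of fun a b => D a (coords W y b)).det ^ m) := by
  have he0 : 0 < e := he ▸ orderOf_pos h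
  have hζ0 : ζ ≠ 0 := hζ.ne_zero he0.ne'
  obtain ⟨a, ha, hah⟩ := exists_eqv G σ W hd hL hσ w hw h hζ0 hc
  choose y' Λ c0 ha1 ha2 ha3 ha4 ha5 ha6 ha7 ha8 using ha
  have hord : ∀ z : L, w.ord ((h : L ≃ₐ[k] L) z) = w.ord z := fun z => hc.ord_eq hζ0 z
  have hdim : ∀ i, d i = d (σ h i) := fun i => dim_eq G σ W hd hσ h i
  have hU : ∀ i, (∃ z ∈ W i, w.ord z ≠ 0) ↔ ∃ z ∈ W (σ h i), w.ord z ≠ 0 := by
    intro i
    constructor
    · rintro ⟨z, hz, hz0⟩
      exact ⟨(h : L ≃ₐ[k] L) z, hσ h i z hz, by rwa [hord]⟩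
    · rintro ⟨z, hz, hz0⟩
      obtain ⟨z', hz', rfl⟩ := map_back G σ W hσ h i z hz
      exact ⟨z', hz', by rwa [hord] at hz0⟩
  have hc0L : ∀ i (c : Fin (d i)), (c0 i c : L) ≠ 0 := fun i c h0 => ha6 i c (Subtype.ext h0)
  -- the values on the coordinates
  let V : Fin (∑ i, d i) → ((i : Fin s) × Fin (d i)) → L := fun j p =>
    D j (a p.1 p.2) / (c0 p.1 p.2 : L)
  have hVh : ∀ j p, (h : L ≃ₐ[k] L) (V j p) = V j (permS (σ h) hdim p) := by
    rintro j ⟨i, c⟩
    rw [permS_apply]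
    change (h : L ≃ₐ[k] L) (D j (a i c) / (c0 i c : L)) =
      D j (a (σ h i) (Fin.cast (hdim i) c : Fin _)) / (c0 (σ h i) (Fin.cast (hdim i) c) : L)
    rw [map_div₀, hDh, hah]
    congr 1
    have hv : ((Fin.cast (hdim i) c : Fin (d (σ h i))) : ℕ) = c := rfl
    by_cases hi : (∃ z ∈ W i, w.ord z ≠ 0) ∧ (c : ℕ) = 0
    · rw [(ha5 i c).1 hi, (ha5 (σ h i) (Fin.cast (hdim i) c)).1 ⟨(hU i).1 hi.1, by rw [hv, hi.2]⟩,
        ha3, ha3, hah, hv]
    · rw [(ha5 i c).2 hi, (ha5 (σ h i) (Fin.cast (hdim i) c)).2 (fun h1 => hi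
        ⟨(hU i).2 h1.1, by rw [← hv, h1.2]⟩)]
      exact map_one _
  have hVr : ∀ j p, Ge w 0 (V j p) := by
    rintro j ⟨i, c⟩
    change Ge w 0 (D j (a i c) / (c0 i c : L))
    have h1 : Ge w 0 (D j (a i c) / a i c) := hDlog j _
    by_cases hi : (∃ z ∈ W i, w.ord z ≠ 0) ∧ (c : ℕ) = 0
    · rw [(ha5 i c).1 hi, ha3]
      exact h1
    · rw [(ha5 i c).2 hi]
      change Ge w 0 (D j (a i c) / 1)
      rw [div_one]
      have h2 := h1.mul (ha2 i c : Ge w 0 (a i c))
      by_cases h3 : a i c = 0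
      · left
        rw [h3, map_zero]
      · rwa [div_mul_cancel₀ _ h3, add_zero] at h2
  -- the base change
  let Z : ∀ i, Matrix (Fin (d i)) (Fin (d i)) L := fun i =>
    Matrix.of fun l c => ((Λ i c (y i l) : W i) : L)
  let E' : ∀ i, Fin (d i) → Derivation k (W i) (W i) := fun i c => (c0 i c)⁻¹ • Λ i c
  have hE' : ∀ i c c', E' i c (y' i c') = if c = c' then 1 else 0 := by
    intro i c c'
    change (c0 i c)⁻¹ * Λ i c (y' i c') = _
    rw [ha7]
    by_cases hcc : c = c'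
    · rw [if_pos hcc, if_pos hcc, inv_mul_cancel₀ (ha6 i c)]
    · rw [if_neg hcc, if_neg hcc, mul_zero]
  have hexp : ∀ j i l, D j ((y i l : W i) : L) = ∑ c, Z i l c * V j ⟨i, c⟩ := by
    intro j i l
    have h1 := Pool.Agent.W308.PG.YLOC.expand (L := L) (y' i) (E' i) (ha4 i) (hE' i) (D j) (y i l)
    change D j ((y i l : W i) : L) = _ at h1
    rw [h1]
    refine Finset.sum_congr rfl fun c _ => ?_
    have h2 : algebraMap (W i) L (E' i c (y i l)) = ((c0 i c : W i) : L)⁻¹ *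
        ((Λ i c (y i l) : W i) : L) := by
      change (((c0 i c)⁻¹ * Λ i c (y i l) : W i) : L) = _
      push_cast
      rfl
    have h3 : algebraMap (W i) L (y' i c) = a i c := ha3 i c
    rw [h2, h3]
    change _ = ((Λ i c (y i l) : W i) : L) * (D j (a i c) / (c0 i c : L))
    rw [div_eq_mul_inv]
    ring
  have hdet := det_sigma Z (fun j p => D j ((y p.1 p.2 : W p.1) : L)) V hexp
  have hcoords : (Matrix.of fun a b => D a (coords W y b)) =
      Matrix.of fun j b => (fun j (p : (i : Fin s) × Fin (d i)) =>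
        D j ((y p.1 p.2 : W p.1) : L)) j (finSigmaFinEquiv.symm b) := rfl
  have hval : ∀ i, ((η i (E i) : W i) : L) * (Z i).det ^ m = ((η i (Λ i) : W i) : L) := by
    intro i
    rw [pluri_frame (hη i) (y i) (hy i) (E i) (hE i) (Λ i)]
    have h1 : (Z i).det = (((Matrix.of fun a b => Λ i a (y i b)).det : W i) : L) := by
      have h2 : (((Matrix.of fun a b => Λ i a (y i b)).det : W i) : L) =
          algebraMap (W i) L (Matrix.of fun a b => Λ i a (y i b)).det := rfl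
      rw [h2, RingHom.map_det, ← Matrix.det_transpose]
      rfl
    rw [h1]
    push_cast
    ring
  let MV : Matrix (Fin (∑ i, d i)) (Fin (∑ i, d i)) L := Matrix.of fun b j =>
    V j (finSigmaFinEquiv.symm b)
  have hMV : (Matrix.of fun j b => V j (finSigmaFinEquiv.symm b)).det = MV.det := by
    rw [← Matrix.det_transpose]
    rfl
  have hprod : (∏ i, ((η i (E i) : W i) : L)) *
      (Matrix.of fun a b => D a (coords W y b)).det ^ m =
      (∏ i, ((η i (Λ i) : W i) : L)) * MV.det ^ m := by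
    rw [hcoords, hdet, hMV, mul_pow, ← Finset.prod_pow, ← mul_assoc, ← Finset.prod_mul_distrib]
    rw [Finset.prod_congr rfl fun i _ => hval i]
  rw [hprod]
  by_cases hM0 : MV.det = 0
  · left
    rw [hM0, zero_pow (by omega), mul_zero]
  -- the orders of the values of the forms
  have hf : ∀ i, ∃ f : ℕ, Ge w (m * f) ((η i (Λ i) : W i) : L) ∧
      ((∃ z ∈ W i, w.ord z ≠ 0) → 0 < f ∧ ∃ x ∈ W i, w.ord x = f) := by
    intro i
    by_cases hi : ∃ z ∈ W i, w.ord z ≠ 0
    · obtain ⟨z, hz, hz0⟩ := hi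
      obtain ⟨f, q, hq⟩ := exists_over (K := W i) w ⟨⟨z, hz⟩, hz0⟩
      obtain ⟨x, hx0, hx⟩ := q.surj
      refine ⟨f, ge_value w _ (d i) m hL hw (W i) (hd i) (hη i) (hreg i) (Λ i) (ha8 i) hq,
        fun _ => ⟨hq.1, x, x.2, ?_⟩⟩
      have h1 : w.ord ((x : W i) : L) = f * q.ord x := hq.2 x
      rw [h1, hx, mul_one]
    · refine ⟨0, ?_, fun h1 => absurd h1 hi⟩
      push Not at hi
      simp only [Nat.cast_zero, mul_zero]
      exact Or.inr (hi _ (SetLike.coe_mem _)).ge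
  choose f hf1 hf2 using hf
  have hG1 : Ge w (∑ i, (m : ℤ) * f i) (∏ i, ((η i (Λ i) : W i) : L)) :=
    Ge.prod _ _ _ fun i _ => hf1 i
  have hG2 : Ge w (w.ord MV.det) MV.det := Or.inr le_rfl
  refine (hG1.mul (hG2.pow m)).mono ?_
  -- the determinant
  have hB := Pool.Agent.W110.PG.DET.main k L (∑ i, d i) e w h ζ (permN (σ h) hdim) MV he0 hζ
    (fun a y hy hhy => hc.dvd he0 hζ a y hy hhy)
    (by
      apply Equiv.ext
      intro b
      change (permN (σ h) hdim ^ e) b = b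
      rw [pow_apply_eq, ← map_pow, ← he, pow_orderOf_eq_one, map_one]
      rfl)
    (fun b j => by
      change (h : L ≃ₐ[k] L) (V j (finSigmaFinEquiv.symm b)) =
        V j (finSigmaFinEquiv.symm (permN (σ h) hdim b))
      rw [hVh, permN_symm]) (fun b j => hVr j _) hM0
  have horb := orbits_eq (σ h) hdim
  have hfin : IsOfFinOrder (h : L ≃ₐ[k] L) := by
    have h1 : IsOfFinOrder h := isOfFinOrder_of_finite h
    exact G.subtype.isOfFinOrder h1
  have hfe : ∀ i, ((if TrivialOn ((h : L ≃ₐ[k] L) ^ minimalPeriod (σ h) i) (W i) then 0 else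
      1 / (orderOn (h : L ≃ₐ[k] L) (W i) : ℚ)) : ℚ) * e ≤ f i := by
    intro i
    by_cases ht : TrivialOn ((h : L ≃ₐ[k] L) ^ minimalPeriod (σ h) i) (W i)
    · rw [if_pos ht, zero_mul]
      positivity
    · rw [if_neg ht]
      have hper : σ (h ^ minimalPeriod (σ h) i) i = i := by
        rw [map_pow, Equiv.Perm.coe_pow]
        exact Function.iterate_minimalPeriod
      have hi : ∃ z ∈ W i, w.ord z ≠ 0 := by
        by_contra hi
        push Not at hi
        exact ht (fix_triv G σ W hσ hζ0 hc i hi _ hper)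
      obtain ⟨hf0, x, hx, hxf⟩ := hf2 i hi
      obtain ⟨h1, h2⟩ := orderOn_spec hfin (W i)
      have h3 := hc.le he0 hζ h1 (x := x) (by rw [hxf]; exact_mod_cast hf0) (h2 x hx)
      rw [hxf] at h3
      have h4 : (e : ℚ) ≤ (orderOn (h : L ≃ₐ[k] L) (W i) : ℚ) * f i := by exact_mod_cast h3
      have h5 : (0 : ℚ) < (orderOn (h : L ≃ₐ[k] L) (W i) : ℚ) := by exact_mod_cast h1
      rw [one_div, inv_mul_le_iff₀ h5]
      exact h4
  -- the sum
  have hBq : (e : ℚ) * (((∑ i, d i : ℕ) : ℚ) - ∑ i, (d i : ℚ) * (1 / (minimalPeriod (σ h) i : ℚ))) ≤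
      2 * (w.ord MV.det : ℚ) := by
    rw [← horb]
    exact_mod_cast hB
  have hsum : (e : ℚ) * age (σ h) W d (h : L ≃ₐ[k] L) ≤ (∑ i, (f i : ℚ)) + w.ord MV.det := by
    have h1 : age (σ h) W d (h : L ≃ₐ[k] L) =
        (((∑ i, d i : ℕ) : ℚ) - ∑ i, (d i : ℚ) * (1 / (minimalPeriod (σ h) i : ℚ))) / 2 +
        ∑ i, (if TrivialOn ((h : L ≃ₐ[k] L) ^ minimalPeriod (σ h) i) (W i) then 0 else
          1 / (orderOn (h : L ≃ₐ[k] L) (W i) : ℚ)) := by
      unfold age
      rw [Finset.sum_add_distrib]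
      congr 1
      push_cast
      rw [← Finset.sum_sub_distrib, Finset.sum_div]
      refine Finset.sum_congr rfl fun i _ => ?_
      ring
    rw [h1, mul_add, Finset.mul_sum]
    have h2 : ∑ i, (e : ℚ) * (if TrivialOn ((h : L ≃ₐ[k] L) ^ minimalPeriod (σ h) i) (W i) then 0
        else 1 / (orderOn (h : L ≃ₐ[k] L) (W i) : ℚ)) ≤ ∑ i, (f i : ℚ) :=
      Finset.sum_le_sum fun i _ => by
        rw [mul_comm]
        exact hfe i
    linarith
  have hfinal : (e : ℚ) ≤ (∑ i, (f i : ℚ)) + w.ord MV.det := by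
    have h1 : (e : ℚ) * 1 ≤ e * age (σ h) W d (h : L ≃ₐ[k] L) :=
      mul_le_mul_of_nonneg_left hage (by positivity)
    linarith
  have hfinal' : (e : ℤ) ≤ (∑ i, (f i : ℤ)) + w.ord MV.det := by exact_mod_cast hfinal
  rw [← Finset.mul_sum, ← mul_add]
  exact mul_le_mul_of_nonneg_left hfinal' (by positivity)

end

end Pool.Agent.H63.MM
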