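import Pool.Agent.H63.MM.Log
import Pool.Graph.R_seed8.W140.PG.REG2

/-! Regularity of the product forms on the quotient. -/

set_option autoImplicit false
set_option linter.overlappingInstances false
set_option linter.unusedSectionVars false

open FF IntermediateField Pool.Agent.W619.PQ Pool.Agent.W619.PL Pool.Agent.W619.TW
  Pool.Agent.W603.LV Pool.Agent.W619.Y Pool.Agent.W391.PG.REGLOG Q36.GV
open Function (minimalPeriod)

namespace Pool.Agent.H63.MM

section

variable {k L : Type} [Field k] [Field L] [Algebra k L] {s : ℕ}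

/-- `g` is in the inertia group of the prime divisor `q` over the factor with function field `W`:
it maps each function which is regular along `q` to a function with the same values along `q`. -/
def Inertial (W : IntermediateField k L) (q : Place k W) (g : L ≃ₐ[k] L) : Prop :=
  ∀ z z' : W, g z = z' → q.Reg z → z' = z ∨ 0 < q.ord (z' - z)

/-- Some power of `g` maps a factor to itself, is not the identity there and is not in the inertia
group of any prime divisor over this factor. -/
def FreeOn (G : Subgroup (L ≃ₐ[k] L)) (σ : G →* Equiv.Perm (Fin s))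
    (W : Fin s → IntermediateField k L) (d : Fin s → ℕ) (g : G) : Prop :=
  ∃ (i : Fin s) (r : ℕ), σ (g ^ r) i = i ∧ ¬ TrivialOn ((g : L ≃ₐ[k] L) ^ r) (W i) ∧
    ∀ q : Place k (W i), IsDivisorial q (d i) → ¬ Inertial (W i) q ((g : L ≃ₐ[k] L) ^ r)

end

section

variable {k L : Type} [Field k] [CharZero k] [IsAlgClosed k] [Field L] [Algebra k L] {s : ℕ}
  {d : Fin s → ℕ} (G : Subgroup (L ≃ₐ[k] L)) [Finite G] (σ : G →* Equiv.Perm (Fin s))
  (W : Fin s → IntermediateField k L) [hess : ∀ i, Algebra.EssFiniteType k (W i)]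

theorem not_freeOn (hd : ∀ i, Algebra.trdeg k (W i) = d i)
    (hL : Algebra.trdeg k L = (∑ i, d i : ℕ))
    (hσ : ∀ (g : G) i, ∀ z ∈ W i, (g : L ≃ₐ[k] L) z ∈ W (σ g i)) {w : Place k L}
    (hw : IsDivisorial w (∑ i, d i)) {h : G} {ζ : k} (hζ0 : ζ ≠ 0)
    (hc : IsChar w (h : L ≃ₐ[k] L) ζ) : ¬ FreeOn G σ W d h := by
  rintro ⟨i, r, hr, hnt, hq⟩
  by_cases hi : ∃ z ∈ W i, w.ord z ≠ 0
  · obtain ⟨z, hz, hz0⟩ := hi
    obtain ⟨f, q, hov⟩ := exists_over (K := W i) w ⟨⟨z, hz⟩, hz0⟩
    have hdiv : IsDivisorial q (d i) := pDIVR k (W i) L (d i) _ q w f (hd i) hL hov hw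
    refine hq q hdiv fun z z' hzz hzr => ?_
    by_cases hz0 : z = 0
    · left
      apply Subtype.ext
      rw [← hzz, hz0]
      exact map_zero _
    have hzL : (z : L) ≠ 0 := fun h0 => hz0 (Subtype.ext h0)
    have hcr := hc.pow hζ0 r
    have h1 := hcr (z : L) hzL
    have hzo : 0 ≤ w.ord (z : L) := by
      have h2 : w.ord (z : L) = f * q.ord z := hov.2 z
      rw [h2]
      exact mul_nonneg (by positivity) (hzr.resolve_left hz0)
    have h3 : Ge w 1 (((h : L ≃ₐ[k] L) ^ r) (z : L) - (z : L)) := by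
      by_cases h4 : w.ord (z : L) = 0
      · rw [h4, zpow_zero, map_one, one_mul, zero_add] at h1
        exact h1
      · have h5 : Ge w 1 (z : L) := Or.inr (by omega)
        have h6 : Ge w 1 (((h : L ≃ₐ[k] L) ^ r) (z : L)) := by
          right
          rw [IsChar.ord_eq (pow_ne_zero _ hζ0) hcr]
          omega
        exact h6.sub h5
    rw [hzz] at h3
    rcases h3 with h3 | h3
    · left
      exact Subtype.ext (sub_eq_zero.1 h3)
    · right
      have h4 : w.ord ((z' : L) - (z : L)) = f * q.ord (z' - z) := hov.2 (z' - z)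
      rw [h4] at h3
      by_contra h5
      push Not at h5
      have : (f : ℤ) * q.ord (z' - z) ≤ 0 := mul_nonpos_of_nonneg_of_nonpos (by positivity) h5
      omega
  · push Not at hi
    exact hnt (fix_triv G σ W hσ hζ0 hc i hi r hr)

variable (m : ℕ) (y : ∀ i, Fin (d i) → W i)
    (E : ∀ i, Fin (d i) → Derivation k (W i) (W i)) (hy : ∀ i, IsTranscendenceBasis k (y i))
    (hE : ∀ i a b, E i a (y i b) = if a = b then 1 else 0)
    (η : ∀ i, (Fin (d i) → Derivation k (W i) (W i)) → W i)
    (hη : ∀ i, IsPluriForm k (W i) (d i) m (η i))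
    (hreg : ∀ i, ∀ u : Place k (W i), IsDivisorial u (d i) → RegularAt u (d i) (η i))

include hy hE hη hreg in
/-- The product forms are regular. -/
theorem reg_prod (hd : ∀ i, Algebra.trdeg k (W i) = d i)
    (hL : Algebra.trdeg k L = (∑ i, d i : ℕ)) (w : Place k L)
    (hw : IsDivisorial w (∑ i, d i)) (D : Fin (∑ i, d i) → Derivation k L L)
    (hD : ∀ j, Pres w (D j)) :
    Ge w 0 ((∏ i, ((η i (E i) : W i) : L)) *
      (Matrix.of fun a b => D a (coords W y b)).det ^ m) := by
  classical
  have h1 : ∀ i, YGood (d i) m w (fun l => (y i l : L)) ((η i (E i) : W i) : L) := fun i =>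
    pYLOC.{0, 0} k L (W i) (d i) (∑ i, d i) m (hd i) hL (fun y hy => fin_over y hy) (η i) (hη i)
      (hreg i) (y i) (E i) (hy i) (hE i) w hw
  choose Z z hz hZ hA using h1
  have hdet := det_sigma Z (fun j p => D j ((y p.1 p.2 : W p.1) : L))
    (fun j p => D j (z p.1 p.2)) (fun a i l => hZ i (D a) l)
  have hcoords : (Matrix.of fun a b => D a (coords W y b)) =
      Matrix.of fun j b => (fun j (p : (i : Fin s) × Fin (d i)) =>
        D j ((y p.1 p.2 : W p.1) : L)) j (finSigmaFinEquiv.symm b) := rfl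
  rw [hcoords, hdet, mul_pow, ← Finset.prod_pow, ← mul_assoc, ← Finset.prod_mul_distrib]
  have h2 : Ge w (∑ _i : Fin s, (0 : ℤ)) (∏ i, (((η i (E i) : W i) : L) * (Z i).det ^ m)) :=
    Ge.prod _ _ _ fun i _ => hA i
  have h3 : Ge w 0 (Matrix.of fun j (b : Fin (∑ i, d i)) => (fun j (p : (i : Fin s) × Fin (d i)) =>
      D j (z p.1 p.2)) j (finSigmaFinEquiv.symm b)).det :=
    Pool.Agent.W619.PQ.ge_det w _ fun a b => hD a _ (hz _ _)
  have h4 := h2.mul (h3.pow m)
  simpa using h4

include hy hE hη hreg in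
/-- **The estimate at a place over a prime divisor of the quotient.** -/
theorem core [Algebra.EssFiniteType k L] (hd : ∀ i, Algebra.trdeg k (W i) = d i)
    (hL : Algebra.trdeg k L = (∑ i, d i : ℕ))
    (hσ : ∀ (g : G) i, ∀ z ∈ W i, (g : L ≃ₐ[k] L) z ∈ W (σ g i))
    (hm : 1 ≤ m) (v : Place k (fixedField G)) (hv : IsDivisorial v (∑ i, d i)) (w : Place k L)
    (e : ℕ) (hwv : Over w v e) (h : G) (ζ : k) (he : orderOf h = e) (hζ : IsPrimitiveRoot ζ e)
    (hc : IsChar w (h : L ≃ₐ[k] L) ζ)
    (hG : h ≠ 1 → 1 ≤ age (σ h) W d (h : L ≃ₐ[k] L) ∨ FreeOn G σ W d h)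
    (D : Fin (∑ i, d i) → Derivation k (fixedField G) (fixedField G))
    (D' : Fin (∑ i, d i) → Derivation k L L) (hD : ∀ j, Pres v (D j))
    (hDD : ∀ j (f : fixedField G), D' j (f : L) = (D j f : L)) :
    Ge w 0 ((∏ i, ((η i (E i) : W i) : L)) *
      (Matrix.of fun a b => D' a (coords W y b)).det ^ m) := by
  classical
  have hw : IsDivisorial w (∑ i, d i) := Pool.Agent.W140.PG.REG2.div_up hwv hv
  have hGal : IsGaloisGroup G (fixedField G) L := isGaloisGroup_fixed G
  have hfd : FiniteDimensional (fixedField G) L :=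
    IsGaloisGroup.finiteDimensional G (fixedField G) L
  have halg : Algebra.IsAlgebraic (fixedField G) L := inferInstance
  have hessK : Algebra.EssFiniteType k (fixedField G) := Q36.SD.ess_below (K := L)
  have hK : Algebra.trdeg k (fixedField G) = (∑ i, d i : ℕ) := Q36.SD.trdeg_below (K := L) hL
  have he0 : 0 < e := he ▸ orderOf_pos h
  have hζ0 : ζ ≠ 0 := hζ.ne_zero he0.ne'
  by_cases he1 : e = 1
  · refine reg_prod W m y E hy hE η hη hreg hd hL w hw D' fun j => ?_
    refine pPRES k (fixedField G) L v w e hwv (D' j) ?_ (Or.inl he1)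
    intro f hf
    have h5 : D' j (algebraMap (fixedField G) L f) = algebraMap (fixedField G) L (D j f) :=
      hDD j f
    rw [h5]
    exact hwv.reg.2 (hD j f hf)
  have hh1 : h ≠ 1 := by
    rintro rfl
    rw [orderOf_one] at he
    exact he1 he.symm
  have hage : 1 ≤ age (σ h) W d (h : L ≃ₐ[k] L) :=
    (hG hh1).resolve_right (not_freeOn G σ W hd hL hσ hw hζ0 hc)
  obtain ⟨yv, Ev, i0, hyv, hEv, h1, hr, hp⟩ := pFRAME k (fixedField G) (∑ i, d i) hK
    (fun y hy => fin_over y hy) v hv
  have hyv0 : yv i0 ≠ 0 := by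
    intro h0
    rw [h0, v.ord_zero] at h1
    omega
  let lam : Fin (∑ i, d i) → fixedField G := fun j => if j = i0 then yv i0 else 1
  have hlam0 : ∀ j, lam j ≠ 0 := by
    intro j
    simp only [lam]
    split_ifs
    · exact hyv0
    · exact one_ne_zero
  have hlamr : ∀ j, Ge v 0 (lam j) := by
    intro j
    simp only [lam]
    split_ifs
    · exact Or.inr (by omega)
    · exact Ge.one
  let E0 : Fin (∑ i, d i) → Derivation k (fixedField G) (fixedField G) := fun j => lam j • Ev j
  have hE0 : ∀ j j', E0 j (yv j') = if j = j' then lam j else 0 := by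
    intro j j'
    change lam j * Ev j (yv j') = _
    rw [hEv]
    split_ifs <;> simp
  have hE0p : ∀ j, Pres v (E0 j) := by
    intro j f hf
    change Ge v 0 (lam j * Ev j f)
    have h2 : Ge v 0 (Ev j f) := hp j f hf
    simpa using (hlamr j).mul h2
  have hE0l : ∀ j f, v.Reg (E0 j f / f) := by
    intro j
    refine log_of_pres v (E0 j) (hE0p j) hyv0 h1 ?_
    rw [hE0]
    by_cases hj : j = i0
    · rw [if_pos hj]
      simp only [lam, if_pos hj]
      rw [div_self hyv0]
      exact v.reg_one
    · rw [if_neg hj, zero_div]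
      exact v.reg_zero
  choose D0 hD01 hD02 hD03 using fun j => pEXT k (fixedField G) L (∑ i, d i) hK (E0 j)
  have hlog : ∀ j z, w.Reg (D0 j z / z) := by
    intro j
    refine pLOG k (fixedField G) L v w e hwv (D0 j) fun f => ?_
    rw [hD01, ← map_div₀]
    exact hwv.reg.2 (hE0l j f)
  have hmain := ge_loc G σ W hd hL hσ w hw h ζ e he hζ hc hage m hm y E hy hE η hη hreg D0 hlog
    fun j z => hD03 j (h : L ≃ₐ[k] L) (fun f => f.2 h) z
  -- the base change
  let C : Matrix (Fin (∑ i, d i)) (Fin (∑ i, d i)) (fixedField G) := Matrix.of fun a j =>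
    D a (yv j) / lam j
  have hexp : ∀ a z, D' a z = ∑ j, (C a j : L) * D0 j z := by
    intro a z
    have hyL : IsTranscendenceBasis k (fun j => algebraMap (fixedField G) L (yv j)) :=
      hyv.algebraMap_comp
    have h2 := der_zero (D' a - ∑ j, (C a j : L) • D0 j) _ hyL (fun l => by
      rw [Derivation.sub_apply, Pool.Agent.W721.PG.EFF2.der_sum]
      have h3 : D' a (algebraMap (fixedField G) L (yv l)) =
        algebraMap (fixedField G) L (D a (yv l)) := hDD a _
      rw [h3, Finset.sum_eq_single l]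
      · rw [hD01, hE0, if_pos rfl]
        change _ - algebraMap (fixedField G) L (D a (yv l) / lam l) * _ = 0
        rw [← map_mul, div_mul_cancel₀ _ (hlam0 l), sub_self]
      · intro j _ hj
        rw [hD01, hE0, if_neg hj, map_zero, mul_zero]
      · intro h4
        exact absurd (Finset.mem_univ l) h4) z
    rw [Derivation.sub_apply, Pool.Agent.W721.PG.EFF2.der_sum, sub_eq_zero] at h2
    exact h2
  have hdet : (Matrix.of fun a b => D' a (coords W y b)).det =
      algebraMap (fixedField G) L C.det * (Matrix.of fun a b => D0 a (coords W y b)).det := by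
    rw [RingHom.map_det, ← Matrix.det_mul]
    congr 1
    ext a b
    rw [Matrix.of_apply, hexp, Matrix.mul_apply]
    rfl
  have hC : Ge v (-1) C.det := by
    have h2 : (Matrix.of fun a j => lam j * C a j).det = yv i0 * C.det := by
      rw [Matrix.det_mul_row]
      congr 1
      simp only [lam]
      rw [Finset.prod_ite_eq' Finset.univ i0 (fun _ => yv i0), if_pos (Finset.mem_univ _)]
    have h3 : Ge v 0 (Matrix.of fun a j => lam j * C a j).det := by
      refine Pool.Agent.W619.PQ.ge_det v _ fun a j => ?_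
      change Ge v 0 (lam j * (D a (yv j) / lam j))
      rw [mul_div_cancel₀ _ (hlam0 j)]
      exact hD a _ (hr j)
    rw [h2] at h3
    exact Ge.of_mul' (P := v) (N := -1) (m := 1) hyv0 h1 (by simpa using h3)
  have hCL : Ge w (-(e : ℤ)) (algebraMap (fixedField G) L C.det) := by
    rcases hC with hC | hC
    · left
      rw [hC, map_zero]
    · right
      rw [hwv.2]
      have : (0 : ℤ) ≤ e := by positivity
      nlinarith
  have hfin := (hCL.pow m).mul hmain
  have h6 : (∏ i, ((η i (E i) : W i) : L)) *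
      (Matrix.of fun a b => D' a (coords W y b)).det ^ m =
      algebraMap (fixedField G) L C.det ^ m * ((∏ i, ((η i (E i) : W i) : L)) *
      (Matrix.of fun a b => D0 a (coords W y b)).det ^ m) := by
    rw [hdet]
    ring
  rw [h6]
  refine hfin.mono ?_
  ring_nf
  exact le_rfl

end

end Pool.Agent.H63.MM
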